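import Pool.Agent.W192.CM.Parts

/-! # Project CM: the conclusion -/

set_option autoImplicit false

open Complex Filter Topology Set

namespace Pool.Agent.W340.CM.FINN

open Pool.Agent.W192.CM

theorem ev_small (A B a b : ℝ) (ha : 0 < a) (hb : 0 < b) :
    ∃ q0 : ℝ, ∀ x : ℝ, q0 ≤ x → A * x ^ (-a) + B * x ^ (-b) < 1 := by
  have h1 : Tendsto (fun x : ℝ => A * x ^ (-a) + B * x ^ (-b)) atTop (𝓝 (A * 0 + B * 0)) :=
    ((tendsto_rpow_neg_atTop ha).const_mul A).add ((tendsto_rpow_neg_atTop hb).const_mul B)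
  have h2 : A * 0 + B * 0 < (1 : ℝ) := by norm_num
  exact eventually_atTop.1 (h1.eventually_lt_const h2)

theorem norm_mc_le {A : Type} [CommRing A] [Finite A] (χ : MulChar A ℂ) (x : A) : ‖χ x‖ ≤ 1 := by
  by_cases h : IsUnit x
  · obtain ⟨u, rfl⟩ := h
    have : Fintype Aˣ := Fintype.ofFinite Aˣ
    have h1 : χ (u : A) ^ Fintype.card Aˣ = 1 := by
      rw [← map_pow, ← Units.val_pow_eq_pow_val, pow_card_eq_one, Units.val_one, map_one]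
    exact (norm_eq_one_of_pow_eq_one h1 Fintype.card_ne_zero).le
  · rw [χ.map_nonunit h, norm_zero]
    exact zero_le_one

theorem order_le {A : Type} [CommRing A] [Finite A] (χ : MulChar A ℂ) :
    orderOf χ ≤ Nat.card A := by
  have : Fintype Aˣ := Fintype.ofFinite Aˣ
  have h := MulChar.pow_card_eq_one χ
  have h1 := Nat.le_of_dvd Fintype.card_pos (orderOf_dvd_of_pow_eq_one h)
  refine h1.trans ?_
  rw [← Nat.card_eq_fintype_card]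
  exact Nat.card_le_card_of_injective (fun u : Aˣ => (u : A)) Units.val_injective

theorem gen_pow {A : Type} [CommRing A] [Finite A] (χ₀ : MulChar A ℂ) (a : ℕ)
    (hd : 1 < orderOf χ₀) (ha : Nat.Coprime a (orderOf χ₀)) :
    a ≠ 0 ∧ ∃ b : ℕ, b ≠ 0 ∧ (χ₀ ^ a) ^ b = χ₀ := by
  have ha0 : a ≠ 0 := by
    rintro rfl
    rw [Nat.coprime_zero_left] at ha
    omega
  obtain ⟨b, -, hb⟩ := Nat.exists_mul_mod_eq_one_of_coprime ha hd
  refine ⟨ha0, b, ?_, ?_⟩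
  · rintro rfl
    simp at hb
  · rw [← pow_mul, ← pow_mod_orderOf, hb, pow_one]

theorem prim_pow {R : Subring ℂ} {κ : R} [Finite (Aq R κ)] (χ₀ : MulChar (Aq R κ) ℂ) (a : ℕ)
    (hd : 1 < orderOf χ₀) (ha : Nat.Coprime a (orderOf χ₀)) (h : Prim χ₀) : Prim (χ₀ ^ a) := by
  obtain ⟨ha0, b, hb0, hb⟩ := gen_pow χ₀ a hd ha
  intro κ' h1 h2
  obtain ⟨α, h3, h4, h5⟩ := h κ' h1 h2
  refine ⟨α, h3, h4, fun h6 => h5 ?_⟩
  rw [← hb]
  unfold ev at h6 ⊢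
  rw [MulChar.pow_apply' _ hb0, h6, one_pow]

theorem unit_pow {R : Subring ℂ} {κ : R} [Finite (Aq R κ)] (χ₀ : MulChar (Aq R κ) ℂ) (a : ℕ)
    (hd : 1 < orderOf χ₀) (ha : Nat.Coprime a (orderOf χ₀))
    (h : ∀ u : R, IsUnit u → ev χ₀ u = 1) : ∀ u : R, IsUnit u → ev (χ₀ ^ a) u = 1 := by
  obtain ⟨ha0, -⟩ := gen_pow χ₀ a hd ha
  intro u hu
  have h1 := h u hu
  unfold ev at h1 ⊢
  rw [MulChar.pow_apply' _ ha0, h1, one_pow]

/-- the elements of `Ef` -/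
theorem Ef_spec {A : Type} [CommRing A] [Finite A] (χ₀ χ : MulChar A ℂ) (M : ℕ)
    (h : χ ∈ Ef χ₀ (Nat.gcd M (orderOf χ₀))) :
    ∃ a : ℕ, Nat.Coprime a (orderOf χ₀) ∧ a % M = 1 % M ∧ χ = χ₀ ^ a := by
  unfold Ef at h
  rw [Set.Finite.mem_toFinset] at h
  obtain ⟨a, ha1, ha2, rfl⟩ := h
  rw [Nat.gcd_comm] at ha2
  obtain ⟨a', h1, h2⟩ := Nat.chineseRemainder' (n := orderOf χ₀) (m := M) (a := a) (b := 1) ha2
  refine ⟨a', ?_, h2, (pow_eq_pow_iff_modEq.2 h1).symm⟩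
  have h3 := Nat.ModEq.gcd_eq h1
  rw [Nat.Coprime, h3]
  exact ha1

/-- the mollifier is small -/
theorem mol_le {R : Subring ℂ} {ω : ℂ} (hR : CMRing R ω) (h1 : C_BASIC) (C : ℝ)
    (hC : ∀ y : ℝ, 0 ≤ y → {α : R | Complex.normSq (α : ℂ) ≤ y}.Finite ∧
      (Set.ncard {α : R | Complex.normSq (α : ℂ) ≤ y} : ℝ) ≤ C * (1 + y))
    (m : R → ℝ) (hm : Mu R m) (g : R → ℂ) (hg : Gd R g) (κ : R) [Finite (Aq R κ)] (B : ℝ)
    (hB : 0 ≤ B) (χ : MulChar (Aq R κ) ℂ) : ‖mol m g B χ‖ ≤ C * (1 + B) := by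
  classical
  obtain ⟨hb1, -, -, hb4, -⟩ := h1 R ω hR
  obtain ⟨hfin, hcard⟩ := hC B hB
  have hterm : ∀ β : R, ‖(if Complex.normSq (β : ℂ) ≤ B then
      ev χ β * ((m β : ℂ) * g β) / (Complex.normSq (β : ℂ) : ℂ) else 0 : ℂ)‖ ≤ 1 := by
    intro β
    split_ifs with h
    · have hsq : Complex.normSq (β : ℂ) = ‖(β : ℂ)‖ ^ 2 := Complex.normSq_eq_norm_sq _
      have hge : ‖(β : ℂ)‖ ≤ Complex.normSq (β : ℂ) := by
        obtain ⟨n, hn⟩ := hb1 β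
        rcases Nat.eq_zero_or_pos n with h0 | h0
        · rw [h0, Nat.cast_zero] at hn
          have : (β : ℂ) = 0 := Complex.normSq_eq_zero.1 hn
          rw [this]
          simp
        · have h2 : (1 : ℝ) ≤ ‖(β : ℂ)‖ ^ 2 := by
            rw [← hsq, hn]
            exact_mod_cast h0
          rw [hsq]
          have h3 : (1 : ℝ) ≤ ‖(β : ℂ)‖ := by
            by_contra h4
            push Not at h4
            nlinarith [norm_nonneg (β : ℂ)]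
          nlinarith
      rw [norm_div, norm_mul, norm_mul, Complex.norm_real, Complex.norm_real,
        Real.norm_of_nonneg (Complex.normSq_nonneg _)]
      refine div_le_one_of_le₀ ?_ (Complex.normSq_nonneg _)
      calc ‖ev χ β‖ * (‖m β‖ * ‖g β‖) ≤ 1 * (1 * ‖(β : ℂ)‖) := by
            refine mul_le_mul (norm_mc_le χ _) ?_ (by positivity) zero_le_one
            exact mul_le_mul (hm.le β) (hg.le β) (norm_nonneg _) zero_le_one
        _ = ‖(β : ℂ)‖ := by ring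
        _ ≤ _ := hge
    · rw [norm_zero]
      exact zero_le_one
  unfold mol
  rw [norm_mul]
  have hnu : ‖(1 / (nu R : ℂ))‖ ≤ 1 := by
    have hpos : 1 ≤ nu R := by
      unfold nu
      have := hb4
      exact Nat.card_pos
    rw [norm_div, norm_one, Complex.norm_natCast]
    refine div_le_one_of_le₀ ?_ (Nat.cast_nonneg _)
    exact_mod_cast hpos
  have hts : ‖∑' β : R, (if Complex.normSq (β : ℂ) ≤ B then
      ev χ β * ((m β : ℂ) * g β) / (Complex.normSq (β : ℂ) : ℂ) else 0 : ℂ)‖ ≤ C * (1 + B) := by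
    rw [tsum_eq_sum (s := hfin.toFinset)]
    · refine (norm_sum_le _ _).trans ?_
      refine (Finset.sum_le_sum fun β _ => hterm β).trans ?_
      rw [Finset.sum_const, nsmul_eq_mul, mul_one, ← Set.ncard_eq_toFinset_card _ hfin]
      exact hcard
    · intro β hβ
      rw [Set.Finite.mem_toFinset] at hβ
      exact if_neg hβ
  calc ‖(1 / (nu R : ℂ))‖ * ‖∑' β : R, (if Complex.normSq (β : ℂ) ≤ B then
      ev χ β * ((m β : ℂ) * g β) / (Complex.normSq (β : ℂ) : ℂ) else 0 : ℂ)‖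
      ≤ 1 * (C * (1 + B)) := mul_le_mul hnu hts (norm_nonneg _) zero_le_one
    _ = _ := one_mul _

/-- small exponents -/
theorem core (h0 : Pool.Agent.W192.CY.S_DIV) (h1 : C_BASIC) (h2 : C_LAT) (h3 : C_MU)
    (h4 : C_MOB) (h5 : C_MAINP) (h6 : C_DUALP) (R : Subring ℂ) (ω : ℂ) (hR : CMRing R ω)
    (g : R → ℂ) (hg : Gd R g) (c0 : ℝ) (hc0 : 0 < c0) (M : ℕ) (hM : 1 ≤ M) (ε : ℝ) (hε : 0 < ε)
    (hsmall : ε < 1 / 12) :
    ∃ q0 : ℝ, 2 ≤ q0 ∧ ∀ (κ φ : R) [Finite (Aq R κ)], κ ≠ 0 → IsCoprime φ κ →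
      q0 ≤ Complex.normSq (κ : ℂ) →
      ∀ w : ℂ, ‖w‖ = 1 → ∀ L : MulChar (Aq R κ) ℂ → ℂ,
        (∀ χ : MulChar (Aq R κ) ℂ, Prim χ → (∀ u : R, IsUnit u → ev χ u = 1) →
          ∀ X Y : ℝ, 0 < X → 0 < Y → X * Y = c0 * Complex.normSq (κ : ℂ) →
          L χ = smo g X χ + w * (ev χ φ * gs ω κ χ / (‖(κ : ℂ)‖ : ℂ)) *
            (starRingEnd ℂ) (smo g Y χ)) →
        ∀ χ₀ : MulChar (Aq R κ) ℂ, Prim χ₀ → (∀ u : R, IsUnit u → ev χ₀ u = 1) →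
          (Complex.normSq (κ : ℂ)) ^ (2 / 3 + ε) ≤ orderOf χ₀ →
          ∃ a : ℕ, Nat.Coprime a (orderOf χ₀) ∧ a % M = 1 % M ∧ Prim (χ₀ ^ a) ∧
            (∀ u : R, IsUnit u → ev (χ₀ ^ a) u = 1) ∧
            (Complex.normSq (κ : ℂ)) ^ (-ε) ≤ ‖L (χ₀ ^ a)‖ := by
  obtain ⟨m, hm⟩ := h3 R ω hR
  obtain ⟨δ1, C1, q1, hδ1, hC1, H1⟩ := h5 R ω hR m g hm hg ε hε hsmall
  obtain ⟨δ2, C2, q2, hδ2, hC2, H2⟩ := h6 R ω hR m g hm hg c0 hc0 ε hε hsmall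
  obtain ⟨C3, hC3, H3⟩ := h2 R ω hR
  have H3' : ∀ y : ℝ, 0 ≤ y → {α : R | Complex.normSq (α : ℂ) ≤ y}.Finite ∧
      (Set.ncard {α : R | Complex.normSq (α : ℂ) ≤ y} : ℝ) ≤ C3 * (1 + y) := by
    intro y hy
    have h := H3 1 one_ne_zero 0 y hy
    have e1 : {α : R | Complex.normSq (α : ℂ) ≤ y ∧ (1 : R) ∣ α - 0} =
        {α : R | Complex.normSq (α : ℂ) ≤ y} := by
      ext α
      simp
    rw [e1] at h
    refine ⟨h.1, h.2.trans (le_of_eq ?_)⟩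
    have : Complex.normSq (((1 : R) : ℂ)) = 1 := by
      rw [OneMemClass.coe_one, map_one]
    rw [this, div_one]
  set δ := min δ1 δ2 with hδdef
  have hδ : 0 < δ := lt_min hδ1 hδ2
  obtain ⟨C4, hC4, -, H4⟩ := h0 (δ / 2) (by linarith)
  obtain ⟨q3, H5⟩ := ev_small ((C1 + C2) * C4 * M) (2 * C3) (δ / 2) (ε / 2) (by linarith)
    (by linarith)
  refine ⟨max (max (max q1 q2) q3) 2, le_max_right _ _, ?_⟩
  intro κ φ _ hκ hφκ hq0' w hw L hL χ₀ hχ₀ hu₀ hle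
  have hNd : (orderOf χ₀ : ℝ) ≤ Complex.normSq (κ : ℂ) := by
    rw [← ((h1 R ω hR).2.2.2.2 κ hκ).2]
    exact_mod_cast order_le χ₀
  generalize hq : Complex.normSq (κ : ℂ) = q at *
  have hq0 : max (max q1 q2) q3 ≤ q := le_trans (le_max_left _ _) hq0'
  have hq2 : (2 : ℝ) ≤ q := le_trans (le_max_right _ _) hq0'
  have hqpos : (0 : ℝ) < q := by linarith
  have hq1 : (1 : ℝ) ≤ q := by linarith
  have hqa : q1 ≤ q := le_trans (le_trans (le_max_left _ _) (le_max_left _ _)) hq0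
  have hqb : q2 ≤ q := le_trans (le_trans (le_max_right _ _) (le_max_left _ _)) hq0
  have hqc : q3 ≤ q := le_trans (le_max_right _ _) hq0
  -- the two parts
  have hMain := H1 κ hκ (by rw [hq]; exact hqa) χ₀ hu₀ (by rw [hq]; exact hle)
  have hDual := H2 κ φ hκ hφκ (by rw [hq]; exact hqb) χ₀ (by rw [hq]; exact hle)
  rw [hq] at hMain hDual
  set d := orderOf χ₀ with hddef
  have hd1 : (1 : ℝ) < d := by
    refine lt_of_lt_of_le ?_ hle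
    exact Real.one_lt_rpow (by linarith) (by linarith)
  have hd1' : 1 < d := by exact_mod_cast hd1
  have hdpos : (0 : ℝ) < d := by linarith
  by_contra hcon
  push Not at hcon
  set M₁ := Nat.gcd M d with hM₁
  have hM₁1 : 1 ≤ M₁ := Nat.gcd_pos_of_pos_left _ (by omega)
  have hM₁d : M₁ ∣ d := Nat.gcd_dvd_right _ _
  have hM₁0 : M₁ ≤ M := Nat.gcd_le_left _ (by omega)
  have hEf : ∀ χ ∈ Ef χ₀ M₁, Prim χ ∧ (∀ u : R, IsUnit u → ev χ u = 1) ∧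
      ‖L χ‖ ≤ q ^ (-ε) := by
    intro χ hχ
    obtain ⟨a, ha, ha', hχa⟩ := Ef_spec χ₀ χ M hχ
    have hp := prim_pow χ₀ a hd1' ha hχ₀
    have hu := unit_pow χ₀ a hd1' ha hu₀
    rw [hχa]
    exact ⟨hp, hu, (hcon a ha ha' hp hu).le⟩
  -- sizes
  set B := q ^ (ε / 2) with hB
  have hBpos : 0 < B := Real.rpow_pos_of_pos hqpos _
  have hB1 : 1 ≤ B := Real.one_le_rpow hq1 (by linarith)
  set X := q ^ (2 / 3 : ℝ) with hX
  set Y := c0 * q ^ (1 / 3 : ℝ) with hY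
  have hXpos : 0 < X := Real.rpow_pos_of_pos hqpos _
  have hYpos : 0 < Y := mul_pos hc0 (Real.rpow_pos_of_pos hqpos _)
  have hXY : X * Y = c0 * q := by
    have : q ^ (2 / 3 : ℝ) * q ^ (1 / 3 : ℝ) = q := by
      rw [← Real.rpow_add hqpos]
      norm_num
    calc X * Y = c0 * (q ^ (2 / 3 : ℝ) * q ^ (1 / 3 : ℝ)) := by rw [hX, hY]; ring
      _ = c0 * q := by rw [this]
  have hL' : ∀ χ ∈ Ef χ₀ M₁, L χ = smo g X χ + w * (ev χ φ * gs ω κ χ / (‖(κ : ℂ)‖ : ℂ)) *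
        (starRingEnd ℂ) (smo g Y χ) := by
    intro χ hχ
    exact hL χ (hEf χ hχ).1 (hEf χ hχ).2.1 X Y hXpos hYpos hXY
  have hMn := hMain M₁ hM₁1 hM₁d
  have hDn := hDual M₁ hM₁1 hM₁d
  set T := ∑ χ ∈ Ef χ₀ M₁, mol m g B χ * smo g X χ with hT
  set D := ∑ χ ∈ Ef χ₀ M₁, mol m g B χ * (ev χ φ * gs ω κ χ / (‖(κ : ℂ)‖ : ℂ)) *
      (starRingEnd ℂ) (smo g Y χ) with hD
  have hTot : ∑ χ ∈ Ef χ₀ M₁, mol m g B χ * L χ = T + w * D := by
    rw [hT, hD, Finset.mul_sum, ← Finset.sum_add_distrib]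
    refine Finset.sum_congr rfl fun χ hχ => ?_
    rw [hL' χ hχ]
    ring
  obtain ⟨K, hK⟩ : ∃ K : ℕ, K = (Ef χ₀ M₁).card := ⟨_, rfl⟩
  have hcard0 : K * Nat.totient M₁ = Nat.totient d := by
    obtain ⟨t, ht, -⟩ := h4 (Aq R κ) χ₀ M₁ hM₁1 hM₁d
    rw [hK]
    exact ht
  have hφpos : (0 : ℝ) < Nat.totient d := by
    exact_mod_cast Nat.totient_pos.2 (by omega)
  have hKφ : (Nat.totient d : ℝ) ≤ K * M := by
    rw [← hcard0]
    push_cast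
    have : (Nat.totient M₁ : ℝ) ≤ M := by
      exact_mod_cast (Nat.totient_le M₁).trans hM₁0
    gcongr
  have hKpos : (0 : ℝ) < K := by
    rcases Nat.eq_zero_or_pos K with h | h
    · rw [h, Nat.cast_zero, zero_mul] at hKφ
      linarith
    · exact_mod_cast h
  rw [← hK] at hMn
  -- upper bound
  have hupper : ‖T + w * D‖ ≤ 2 * C3 * (K : ℝ) * q ^ (-(ε / 2)) := by
    rw [← hTot]
    calc ‖∑ χ ∈ Ef χ₀ M₁, mol m g B χ * L χ‖
        ≤ ∑ χ ∈ Ef χ₀ M₁, ‖mol m g B χ * L χ‖ := norm_sum_le _ _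
      _ ≤ ∑ χ ∈ Ef χ₀ M₁, (C3 * (1 + B)) * q ^ (-ε) := by
          refine Finset.sum_le_sum fun χ hχ => ?_
          rw [norm_mul]
          exact mul_le_mul (mol_le hR h1 C3 H3' m hm g hg κ B hBpos.le χ) (hEf χ hχ).2.2
            (norm_nonneg _) (by positivity)
      _ = (K : ℝ) * ((C3 * (1 + B)) * q ^ (-ε)) := by
          rw [Finset.sum_const, nsmul_eq_mul, hK]
      _ ≤ (K : ℝ) * ((C3 * (B + B)) * q ^ (-ε)) := by gcongr
      _ = 2 * C3 * (K : ℝ) * (q ^ (ε / 2) * q ^ (-ε)) := by rw [hB]; ring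
      _ = 2 * C3 * (K : ℝ) * q ^ (-(ε / 2)) := by
          rw [← Real.rpow_add hqpos]
          congr 2
          ring
  -- lower bound
  have hlow : (K : ℝ) ≤ ‖T + w * D‖ + C1 * d * q ^ (-δ1) + C2 * d * q ^ (-δ2) := by
    have e1 : ((K : ℕ) : ℂ) = (T + w * D) - (T - (K : ℂ)) - w * D := by
      ring
    calc (K : ℝ) = ‖((K : ℕ) : ℂ)‖ := by simp
      _ = ‖(T + w * D) - (T - (K : ℂ)) - w * D‖ := by rw [← e1]
      _ ≤ ‖(T + w * D) - (T - (K : ℂ))‖ + ‖w * D‖ := norm_sub_le _ _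
      _ ≤ ‖T + w * D‖ + ‖T - (K : ℂ)‖ + ‖w * D‖ := by
          gcongr
          exact norm_sub_le _ _
      _ ≤ _ := by
          rw [norm_mul, hw, one_mul]
          gcongr
  have hq1' : q ^ (-δ1) ≤ q ^ (-δ) :=
    Real.rpow_le_rpow_of_exponent_le hq1 (neg_le_neg (min_le_left _ _))
  have hq2' : q ^ (-δ2) ≤ q ^ (-δ) :=
    Real.rpow_le_rpow_of_exponent_le hq1 (neg_le_neg (min_le_right _ _))
  have hφ := H4 d (by omega)
  have hdφ : (d : ℝ) * q ^ (-δ) ≤ C4 * Nat.totient d * q ^ (-(δ / 2)) := by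
    have e1 : (d : ℝ) = (d : ℝ) ^ (1 - δ / 2) * (d : ℝ) ^ (δ / 2) := by
      rw [← Real.rpow_add hdpos]
      simp
    have e2 : (d : ℝ) ^ (δ / 2) ≤ q ^ (δ / 2) :=
      Real.rpow_le_rpow hdpos.le hNd (by linarith)
    calc (d : ℝ) * q ^ (-δ)
        = (d : ℝ) ^ (1 - δ / 2) * (d : ℝ) ^ (δ / 2) * q ^ (-δ) := by rw [← e1]
      _ ≤ (C4 * Nat.totient d) * q ^ (δ / 2) * q ^ (-δ) := by
          gcongr
      _ = C4 * Nat.totient d * (q ^ (δ / 2) * q ^ (-δ)) := by ring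
      _ = C4 * Nat.totient d * q ^ (-(δ / 2)) := by
          rw [← Real.rpow_add hqpos]
          congr 2
          ring
  have hfin := H5 q hqc
  have key : (K : ℝ) ≤ K *
      ((C1 + C2) * C4 * M * q ^ (-(δ / 2)) + 2 * C3 * q ^ (-(ε / 2))) := by
    calc (K : ℝ) ≤ ‖T + w * D‖ + C1 * d * q ^ (-δ1) +
          C2 * d * q ^ (-δ2) := hlow
      _ ≤ 2 * C3 * K * q ^ (-(ε / 2)) + C1 * d * q ^ (-δ) +
          C2 * d * q ^ (-δ) := by gcongr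
      _ = 2 * C3 * K * q ^ (-(ε / 2)) + (C1 + C2) * (d * q ^ (-δ)) := by
          ring
      _ ≤ 2 * C3 * K * q ^ (-(ε / 2)) + (C1 + C2) *
          (C4 * Nat.totient d * q ^ (-(δ / 2))) := by gcongr
      _ ≤ 2 * C3 * K * q ^ (-(ε / 2)) + (C1 + C2) *
          (C4 * (K * M) * q ^ (-(δ / 2))) := by gcongr
      _ = _ := by ring
  have : (K : ℝ) * ((C1 + C2) * C4 * M * q ^ (-(δ / 2)) +
      2 * C3 * q ^ (-(ε / 2))) < K * 1 := by
    gcongr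
  linarith

theorem c_finn (h0 : Pool.Agent.W192.CY.S_DIV) (h1 : C_BASIC) (h2 : C_LAT) (h3 : C_MU)
    (h4 : C_MOB) (h5 : C_MAINP) (h6 : C_DUALP) : C_FINN := by
  intro R ω hR g hg c0 hc0 M hM ε hε
  obtain ⟨q0, hq0, H⟩ := core h0 h1 h2 h3 h4 h5 h6 R ω hR g hg c0 hc0 M hM (min ε (1 / 24))
    (lt_min hε (by norm_num)) (lt_of_le_of_lt (min_le_right _ _) (by norm_num))
  refine ⟨q0, fun κ φ _ hκ hφκ hq w hw L hL χ₀ hχ₀ hu₀ hle => ?_⟩
  have hN1 : (1 : ℝ) ≤ Complex.normSq (κ : ℂ) := by linarith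
  obtain ⟨a, ha1, ha2, ha3, ha4, ha5⟩ := H κ φ hκ hφκ hq w hw L hL χ₀ hχ₀ hu₀
    ((Real.rpow_le_rpow_of_exponent_le hN1 (by linarith [min_le_left ε (1 / 24)])).trans hle)
  refine ⟨a, ha1, ha2, ha3, ha4, le_trans ?_ ha5⟩
  exact Real.rpow_le_rpow_of_exponent_le hN1 (neg_le_neg (min_le_left _ _))

end Pool.Agent.W340.CM.FINN
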